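import Pool.Agent.FS.DistribSpectra.Lat

open Pool.Agent.Lib.MP_5205a5_lc

/-- There is a computable Boolean algebra on which every nonempty finite distributive lattice is
order isomorphic to the degree spectrum of some unary relation. -/
theorem Pool.Agent.Variants.MP_5205a5_lc.DistribSpectra.result :
    ∃ (B : Type) (_ : BooleanAlgebra B), (∃ ν : B → ℕ, IsComputableCopy ν) ∧
      ∀ (L : Type) [DistribLattice L] [Finite L] [Nonempty L],
        ∃ R : Set B, Nonempty (L ≃o DgSp R) := by
  obtain ⟨ν, hν, -⟩ := exists_copy_computable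
  refine ⟨FC, inferInstance, ⟨ν, hν⟩, fun L _ _ _ => ?_⟩
  obtain ⟨G, hG⟩ := Pool.Agent.FS.DistribSpectra.lattice_spectrum L
  exact ⟨Rel G, hG⟩
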