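import Pool.Agent.Lib.MP_5205a5_lc.Main

open Pool.Agent.Lib.MP_5205a5_lc

/-- There are a computable Boolean algebra and a unary relation on it whose degree spectrum has
exactly two elements. -/
theorem Pool.Agent.Variants.MP_5205a5_lc.TwoElementSpectrum.result :
    ∃ (B : Type) (_ : BooleanAlgebra B), (∃ ν : B → ℕ, IsComputableCopy ν) ∧
      ∃ R : Set B, (DgSp R).ncard = 2 := by
  obtain ⟨G, hG⟩ := two_element_spectrum
  obtain ⟨ν, hν, -⟩ := exists_copy_computable
  exact ⟨FC, inferInstance, ⟨ν, hν⟩, Rel G, hG⟩
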